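import Pool.Agent.H91.CInterp

set_option autoImplicit false

open H91.CInterp in
theorem Pool.Agent.Results.MP_754066_an.RealGateauxFails.result :
    ∃ (ι : ℂ × ℂ →L[ℂ] ℂ × ℂ) (κ : L1 →L[ℂ] L1) (U : ℂ × ℂ → L1) (M₀ M₁ : ℝ)
    (a : ℂ × ℂ), Function.Injective ι ∧ Function.Injective κ ∧ Hyp ι κ U M₀ M₁ ∧
      Mem ι (1 / 2) a ∧
      ¬ (Mem κ (1 / 2) (U a) ∧ inorm κ (1 / 2) (U a) ≤ max M₀ M₁ * inorm ι (1 / 2) a) :=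
  main
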